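import Mathlib

/-!
# Uniform comparison of Gagliardo seminorms of different orders

For `p ≥ 1`, `0 < θ < 1` there is a constant `C` with
`min {s, 1-s}^{1/p} [f]_{s,p} ≤ C (‖f‖_p + min {t, 1-t}^{1/p} [f]_{t,p})` for all `θ < s < t < 1` and all `f`.

With `φ(h) = ‖f(· + h) - f‖_p^p` one has `φ(2h) ≤ 2^p φ(h)`. For `σ = p (1 - s)` the scaling `h ↦ 2h` gives
`(1 - 2^{-σ}) ∫_{|h|<1} φ(h) |h|^{-N-sp} dh = ∫_{|h|<1} (φ(h) - 1_{|h|<1/2} 2^{-p} φ(2h)) |h|^{-N-sp} dh`,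
and the right-hand side is increasing in `s` since its integrand is.
-/

open MeasureTheory Set Metric Module
open scoped ENNReal

namespace Pool.Agent.Results.MP_95ea62_an.UniformComparison

section general

variable {E : Type*} [NormedAddCommGroup E] [NormedSpace ℝ E] [FiniteDimensional ℝ E]
  [MeasurableSpace E] [BorelSpace E] (μ : Measure E) [μ.IsAddHaarMeasure]
  {F : Type*} [NormedAddCommGroup F]

/-- `‖f(· + h) - f‖_p^p` -/
noncomputable def phi (p : ℝ) (f : E → F) (h : E) : ℝ≥0∞ := ∫⁻ x, ‖f (x + h) - f x‖ₑ ^ p ∂μ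

variable {μ}

theorem aem_prod {p : ℝ} {f : E → F} (hf : AEStronglyMeasurable f μ) :
    AEMeasurable (fun q : E × E => ‖f (q.1 + q.2) - f q.1‖ₑ ^ p) (μ.prod μ) := by
  have h1 : AEStronglyMeasurable (fun q : E × E => f q.1) (μ.prod μ) := hf.comp_fst
  have h2 : AEStronglyMeasurable (fun q : E × E => f (q.1 + q.2)) (μ.prod μ) :=
    (hf.comp_snd (μ := μ)).comp_measurePreserving (measurePreserving_prod_add μ μ)
  exact (h2.sub h1).enorm.pow_const p

theorem aem_phi {p : ℝ} {f : E → F} (hf : AEStronglyMeasurable f μ) :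
    AEMeasurable (phi μ p f) μ :=
  (aem_prod (p := p) hf).lintegral_prod_left'

theorem aem_shift {p : ℝ} {f : E → F} (hf : AEStronglyMeasurable f μ) (h : E) :
    AEMeasurable (fun x => ‖f (x + h) - f x‖ₑ ^ p) μ :=
  ((hf.comp_measurePreserving (measurePreserving_add_right μ h)).sub hf).enorm.pow_const p

theorem gag_eq {p : ℝ} {f : E → F} (hf : AEStronglyMeasurable f μ) (r : ℝ) :
    ∫⁻ x, ∫⁻ y, ‖f x - f y‖ₑ ^ p / ‖x - y‖ₑ ^ r ∂μ ∂μ = ∫⁻ h, phi μ p f h * (‖h‖ₑ ^ r)⁻¹ ∂μ := by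
  have h1 : ∀ x, ∫⁻ y, ‖f x - f y‖ₑ ^ p / ‖x - y‖ₑ ^ r ∂μ =
      ∫⁻ h, ‖f (x + h) - f x‖ₑ ^ p * (‖h‖ₑ ^ r)⁻¹ ∂μ := by
    intro x
    rw [← lintegral_add_left_eq_self _ x]
    refine lintegral_congr fun h => ?_
    rw [← enorm_neg (f x - f (x + h)), neg_sub, sub_add_cancel_left, enorm_neg, div_eq_mul_inv]
  simp_rw [h1]
  rw [lintegral_lintegral_swap]
  · refine lintegral_congr fun h => ?_
    rw [lintegral_mul_const'' _ (aem_shift hf h)]
    rfl
  · exact (aem_prod hf).mul (by fun_prop)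

/-- doubling -/
theorem phi_two {p : ℝ} (hp : 1 ≤ p) {f : E → F} (hf : AEStronglyMeasurable f μ) (h : E) :
    phi μ p f ((2 : ℝ) • h) ≤ 2 ^ p * phi μ p f h := by
  have h1 : ∀ x, ‖f (x + (2 : ℝ) • h) - f x‖ₑ ^ p ≤
      2 ^ (p - 1) * (‖f ((x + h) + h) - f (x + h)‖ₑ ^ p + ‖f (x + h) - f x‖ₑ ^ p) := by
    intro x
    refine le_trans ?_ (ENNReal.rpow_add_le_mul_rpow_add_rpow _ _ hp)
    gcongr
    rw [two_smul, ← add_assoc]
    have : f (x + h + h) - f x = (f (x + h + h) - f (x + h)) + (f (x + h) - f x) := by abel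
    rw [this]
    exact enorm_add_le _ _
  have h2 : ∫⁻ x, ‖f ((x + h) + h) - f (x + h)‖ₑ ^ p ∂μ = phi μ p f h :=
    lintegral_add_right_eq_self (fun x => ‖f (x + h) - f x‖ₑ ^ p) h
  calc phi μ p f ((2 : ℝ) • h) ≤ ∫⁻ x, 2 ^ (p - 1) *
        (‖f ((x + h) + h) - f (x + h)‖ₑ ^ p + ‖f (x + h) - f x‖ₑ ^ p) ∂μ := lintegral_mono h1
    _ = 2 ^ (p - 1) * (phi μ p f h + phi μ p f h) := by
      rw [lintegral_const_mul' _ _ (by simp), lintegral_add_right' _ (aem_shift hf h), h2]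
      rfl
    _ = 2 ^ p * phi μ p f h := by
      rw [← two_mul, ← mul_assoc]
      congr 1
      nth_rw 2 [← ENNReal.rpow_one 2]
      rw [← ENNReal.rpow_add _ _ (by simp) (by simp)]
      congr 1; ring

theorem phi_le {p : ℝ} (hp : 1 ≤ p) {f : E → F} (hf : AEStronglyMeasurable f μ) (h : E) :
    phi μ p f h ≤ 2 ^ p * ∫⁻ x, ‖f x‖ₑ ^ p ∂μ := by
  have h1 : ∀ x, ‖f (x + h) - f x‖ₑ ^ p ≤ 2 ^ (p - 1) * (‖f (x + h)‖ₑ ^ p + ‖f x‖ₑ ^ p) := by
    intro x
    refine le_trans ?_ (ENNReal.rpow_add_le_mul_rpow_add_rpow _ _ hp)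
    gcongr
    exact enorm_sub_le
  have h2 : ∫⁻ x, ‖f (x + h)‖ₑ ^ p ∂μ = ∫⁻ x, ‖f x‖ₑ ^ p ∂μ :=
    lintegral_add_right_eq_self (fun x => ‖f x‖ₑ ^ p) h
  calc phi μ p f h ≤ ∫⁻ x, 2 ^ (p - 1) * (‖f (x + h)‖ₑ ^ p + ‖f x‖ₑ ^ p) ∂μ := lintegral_mono h1
    _ = 2 ^ (p - 1) * (∫⁻ x, ‖f x‖ₑ ^ p ∂μ + ∫⁻ x, ‖f x‖ₑ ^ p ∂μ) := by
      rw [lintegral_const_mul' _ _ (by simp), lintegral_add_right' _ (hf.enorm.pow_const p), h2]
    _ = _ := by
      rw [← two_mul, ← mul_assoc]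
      congr 1
      nth_rw 2 [← ENNReal.rpow_one 2]
      rw [← ENNReal.rpow_add _ _ (by simp) (by simp)]
      congr 1; ring

/-- scaling by two -/
theorem lintegral_two (g : E → ℝ≥0∞) :
    ∫⁻ h, g h ∂μ = 2 ^ (finrank ℝ E : ℝ) * ∫⁻ h, g ((2 : ℝ) • h) ∂μ := by
  have h2 : (2 : ℝ) ≠ 0 := two_ne_zero
  let e := (Homeomorph.smul (isUnit_iff_ne_zero.2 h2).unit : E ≃ₜ E).toMeasurableEquiv
  have h1 : ∫⁻ h, g ((2 : ℝ) • h) ∂μ = ∫⁻ h, g h ∂(Measure.map ((2 : ℝ) • ·) μ) :=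
    (lintegral_map_equiv g e).symm
  rw [h1, Measure.map_addHaar_smul μ h2, lintegral_smul_measure, smul_eq_mul, ← mul_assoc]
  have : (2 : ℝ≥0∞) ^ (finrank ℝ E : ℝ) * ENNReal.ofReal |((2 : ℝ) ^ finrank ℝ E)⁻¹| = 1 := by
    rw [abs_of_pos (by positivity), ENNReal.ofReal_inv_of_pos (by positivity),
      ENNReal.ofReal_pow (by norm_num), ENNReal.ofReal_ofNat, ENNReal.rpow_natCast]
    exact ENNReal.mul_inv_cancel (by simp) (by simp)
  rw [this, one_mul]

/-- the part of the seminorm near the diagonal -/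
noncomputable def near (μ : Measure E) (p : ℝ) (f : E → F) (s : ℝ) : ℝ≥0∞ :=
  ∫⁻ h in ball (0 : E) 1, phi μ p f h * (‖h‖ₑ ^ ((finrank ℝ E : ℝ) + s * p))⁻¹ ∂μ

/-- the rescaled function, at most `phi` -/
noncomputable def psi (μ : Measure E) (p : ℝ) (f : E → F) (h : E) : ℝ≥0∞ :=
  (ball (0 : E) (1 / 2)).indicator (fun h => 2 ^ (-p) * phi μ p f ((2 : ℝ) • h)) h

theorem psi_le {p : ℝ} (hp : 1 ≤ p) {f : E → F} (hf : AEStronglyMeasurable f μ) (h : E) :
    psi μ p f h ≤ phi μ p f h := by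
  unfold psi
  by_cases hh : h ∈ ball (0 : E) (1 / 2)
  · rw [indicator_of_mem hh]
    calc 2 ^ (-p) * phi μ p f ((2 : ℝ) • h) ≤ 2 ^ (-p) * (2 ^ p * phi μ p f h) := by
          gcongr; exact phi_two hp hf h
      _ = phi μ p f h := by
          rw [← mul_assoc, ← ENNReal.rpow_add _ _ (by simp) (by simp), neg_add_cancel,
            ENNReal.rpow_zero, one_mul]
  · rw [indicator_of_notMem hh]; exact bot_le

theorem aem_psi {p : ℝ} {f : E → F} (hf : AEStronglyMeasurable f μ) :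
    AEMeasurable (psi μ p f) μ := by
  have h1 : AEMeasurable (fun h : E => phi μ p f ((2 : ℝ) • h)) μ :=
    (aem_phi hf).comp_quasiMeasurePreserving (Measure.quasiMeasurePreserving_smul μ two_ne_zero)
  exact (h1.const_mul _).indicator measurableSet_ball

theorem near_psi (p : ℝ) (f : E → F) (s : ℝ) :
    ∫⁻ h in ball (0 : E) 1, psi μ p f h * (‖h‖ₑ ^ ((finrank ℝ E : ℝ) + s * p))⁻¹ ∂μ =
      2 ^ (-(p * (1 - s))) * near μ p f s := by
  set r : ℝ := (finrank ℝ E : ℝ) + s * p with hr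
  have h2 : near μ p f s = 2 ^ (finrank ℝ E : ℝ) * ∫⁻ h,
      (ball (0 : E) 1).indicator (fun h => phi μ p f h * (‖h‖ₑ ^ r)⁻¹) ((2 : ℝ) • h) ∂μ := by
    rw [near, ← lintegral_indicator measurableSet_ball, lintegral_two]
  have h3 : ∀ h : E, (ball (0 : E) 1).indicator (fun h => phi μ p f h * (‖h‖ₑ ^ r)⁻¹) ((2 : ℝ) • h) =
      2 ^ (p - r) * (ball (0 : E) 1).indicator (fun h => psi μ p f h * (‖h‖ₑ ^ r)⁻¹) h := by
    intro h
    by_cases hh : h ∈ ball (0 : E) (1 / 2)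
    · have h4 : (2 : ℝ) • h ∈ ball (0 : E) 1 := by
        rw [mem_ball_zero_iff] at hh ⊢
        rw [norm_smul, Real.norm_eq_abs, abs_two]; linarith
      have h5 : h ∈ ball (0 : E) 1 := ball_subset_ball (by norm_num) hh
      rw [indicator_of_mem h4, indicator_of_mem h5, psi, indicator_of_mem hh]
      have h6 : ‖(2 : ℝ) • h‖ₑ = 2 * ‖h‖ₑ := by
        rw [enorm_smul]; congr 1
        rw [Real.enorm_eq_ofReal (by norm_num), ENNReal.ofReal_ofNat]
      rw [h6, ENNReal.mul_rpow_of_ne_top (by simp) (by simp), ENNReal.mul_inv (by simp) (by simp),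
        ← ENNReal.rpow_neg]
      have h7 : (2 : ℝ≥0∞) ^ (-r) = 2 ^ (p - r) * 2 ^ (-p) := by
        rw [← ENNReal.rpow_add _ _ (by simp) (by simp)]; congr 1; ring
      rw [h7]
      ring
    · have h4 : (2 : ℝ) • h ∉ ball (0 : E) 1 := by
        rw [mem_ball_zero_iff] at hh ⊢
        rw [norm_smul, Real.norm_eq_abs, abs_two]
        intro h5; apply hh; linarith
      rw [indicator_of_notMem h4]
      by_cases h5 : h ∈ ball (0 : E) 1
      · rw [indicator_of_mem h5, psi, indicator_of_notMem hh, zero_mul, mul_zero]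
      · rw [indicator_of_notMem h5, mul_zero]
  simp_rw [h3] at h2
  rw [lintegral_const_mul' _ _ (by simp [ENNReal.rpow_eq_top_iff]),
    lintegral_indicator measurableSet_ball, ← mul_assoc,
    ← ENNReal.rpow_add _ _ (by simp) (by simp)] at h2
  rw [h2, ← mul_assoc, ← ENNReal.rpow_add _ _ (by simp) (by simp)]
  have : -(p * (1 - s)) + ((finrank ℝ E : ℝ) + (p - r)) = 0 := by rw [hr]; ring
  rw [this, ENNReal.rpow_zero, one_mul]

/-- the part which is increasing in `s` -/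
noncomputable def rem (μ : Measure E) (p : ℝ) (f : E → F) (s : ℝ) : ℝ≥0∞ :=
  ∫⁻ h in ball (0 : E) 1, (phi μ p f h - psi μ p f h) * (‖h‖ₑ ^ ((finrank ℝ E : ℝ) + s * p))⁻¹ ∂μ

theorem near_eq {p : ℝ} (hp : 1 ≤ p) {f : E → F} (hf : AEStronglyMeasurable f μ) (s : ℝ) :
    near μ p f s = 2 ^ (-(p * (1 - s))) * near μ p f s + rem μ p f s := by
  rw [← near_psi, rem, ← lintegral_add_left']
  · rw [near]
    refine lintegral_congr fun h => ?_
    rw [← add_mul, add_tsub_cancel_of_le (psi_le hp hf h)]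
  · exact ((aem_psi hf).mul (by fun_prop)).restrict

theorem weight_mono {p : ℝ} (hp : 1 ≤ p) {s t : ℝ} (hst : s ≤ t) {h : E}
    (hh : h ∈ ball (0 : E) 1) :
    (‖h‖ₑ ^ ((finrank ℝ E : ℝ) + s * p))⁻¹ ≤ (‖h‖ₑ ^ ((finrank ℝ E : ℝ) + t * p))⁻¹ := by
  rw [ENNReal.inv_le_inv]
  apply ENNReal.rpow_le_rpow_of_exponent_ge
  · rw [mem_ball_zero_iff] at hh
    rw [← ofReal_norm, ← ENNReal.ofReal_one]
    exact ENNReal.ofReal_le_ofReal hh.le
  · have : s * p ≤ t * p := mul_le_mul_of_nonneg_right hst (by linarith)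
    linarith

theorem near_mono {p : ℝ} (hp : 1 ≤ p) (f : E → F) {s t : ℝ} (hst : s ≤ t) :
    near μ p f s ≤ near μ p f t := by
  refine setLIntegral_mono' measurableSet_ball fun h hh => ?_
  gcongr 1
  exact weight_mono hp hst hh

theorem rem_mono {p : ℝ} (hp : 1 ≤ p) (f : E → F) {s t : ℝ} (hst : s ≤ t) :
    rem μ p f s ≤ rem μ p f t := by
  refine setLIntegral_mono' measurableSet_ball fun h hh => ?_
  gcongr 1
  exact weight_mono hp hst hh

/-- The comparison of the parts near the diagonal. -/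
theorem near_compare {p : ℝ} (hp : 1 ≤ p) {f : E → F} (hf : AEStronglyMeasurable f μ) {s t : ℝ}
    (hst : s ≤ t) (ht : t < 1) :
    ENNReal.ofReal (1 - (2 : ℝ) ^ (-(p * (1 - s)))) * near μ p f s ≤
      ENNReal.ofReal (1 - (2 : ℝ) ^ (-(p * (1 - t)))) * near μ p f t := by
  have hpos : 0 < 1 - (2 : ℝ) ^ (-(p * (1 - t))) := by
    rw [sub_pos]
    exact Real.rpow_lt_one_of_one_lt_of_neg (by norm_num) (by nlinarith)
  rcases eq_or_ne (near μ p f t) ⊤ with htop | htop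
  · rw [htop, ENNReal.mul_top (by simpa using hpos)]
    exact le_top
  have hstop : near μ p f s ≠ ⊤ := ne_top_of_le_ne_top htop (near_mono hp f hst)
  have key : ∀ u : ℝ, u < 1 → near μ p f u ≠ ⊤ →
      ENNReal.ofReal (1 - (2 : ℝ) ^ (-(p * (1 - u)))) * near μ p f u = rem μ p f u := by
    intro u hu hfin
    have h1 := near_eq hp hf u
    have hc : (2 : ℝ≥0∞) ^ (-(p * (1 - u))) = ENNReal.ofReal ((2 : ℝ) ^ (-(p * (1 - u)))) := by
      rw [← ENNReal.ofReal_rpow_of_pos (by norm_num), ENNReal.ofReal_ofNat]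
    rw [ENNReal.ofReal_sub _ (by positivity), ENNReal.ofReal_one, ← hc,
      ENNReal.sub_mul (fun _ _ => hfin), one_mul]
    have hne : (2 : ℝ≥0∞) ^ (-(p * (1 - u))) * near μ p f u ≠ ⊤ := by
      refine ENNReal.mul_ne_top ?_ hfin
      simp [ENNReal.rpow_eq_top_iff]
    conv_lhs => enter [1]; rw [h1]
    exact ENNReal.add_sub_cancel_left hne
  rw [key s (by linarith) hstop, key t ht htop]
  exact rem_mono hp f hst

/-- the constant for the part away from the diagonal -/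
theorem far_finite {r : ℝ} (hr : (finrank ℝ E : ℝ) < r) :
    ∫⁻ h in (ball (0 : E) 1)ᶜ, (‖h‖ₑ ^ r)⁻¹ ∂μ ≠ ⊤ := by
  have hr0 : 0 < r := (Nat.cast_nonneg _).trans_lt hr
  have h1 : ∫⁻ h in (ball (0 : E) 1)ᶜ, (‖h‖ₑ ^ r)⁻¹ ∂μ ≤
      ∫⁻ h, ENNReal.ofReal (2 ^ r) * ENNReal.ofReal ((1 + ‖h‖) ^ (-r)) ∂μ := by
    refine (setLIntegral_mono' measurableSet_ball.compl fun h hh => ?_).trans
      (setLIntegral_le_lintegral _ _)
    have hh1 : 1 ≤ ‖h‖ := by
      rw [mem_compl_iff, mem_ball_zero_iff, not_lt] at hh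
      exact hh
    have h0 : 0 < ‖h‖ := by linarith
    rw [← ofReal_norm, ENNReal.ofReal_rpow_of_pos h0, ← ENNReal.ofReal_inv_of_pos (by positivity),
      ← ENNReal.ofReal_mul (by positivity)]
    apply ENNReal.ofReal_le_ofReal
    rw [Real.rpow_neg (by positivity), ← div_eq_mul_inv, ← Real.div_rpow (by norm_num) (by positivity),
      ← Real.inv_rpow h0.le]
    apply Real.rpow_le_rpow (by positivity) _ hr0.le
    rw [inv_eq_one_div, div_le_div_iff₀ h0 (by positivity)]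
    linarith
  refine ne_top_of_le_ne_top ?_ h1
  rw [lintegral_const_mul' _ _ ENNReal.ofReal_ne_top]
  exact ENNReal.mul_ne_top ENNReal.ofReal_ne_top (finite_integral_one_add_norm hr).ne

/-- concavity of `1 - 2^{-x}` -/
theorem one_sub_ge {p x : ℝ} (hp : 1 ≤ p) (hx0 : 0 ≤ x) (hx : x ≤ 1) :
    x / 2 ≤ 1 - (2 : ℝ) ^ (-(p * x)) := by
  have h1 : (2 : ℝ) ^ (-(p * x)) ≤ (2 : ℝ) ^ (-x) :=
    Real.rpow_le_rpow_of_exponent_le (by norm_num) (by nlinarith)
  have h2 : (2 : ℝ) ^ (-x) ≤ 1 - x / 2 := by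
    have h3 : (2 : ℝ) ^ (-x) = (1 + (-(1 / 2 : ℝ))) ^ x := by
      rw [Real.rpow_neg (by norm_num), ← Real.inv_rpow (by norm_num)]; norm_num
    rw [h3]
    have := rpow_one_add_le_one_add_mul_self (s := -(1 / 2 : ℝ)) (by norm_num) hx0 hx
    linarith
  linarith

theorem one_sub_le {p x : ℝ} (hp : 1 ≤ p) (hx0 : 0 ≤ x) :
    1 - (2 : ℝ) ^ (-(p * x)) ≤ p * x := by
  have h1 : (2 : ℝ) ^ (-(p * x)) = Real.exp (Real.log 2 * (-(p * x))) :=
    Real.rpow_def_of_pos (by norm_num) _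
  have h2 := Real.add_one_le_exp (Real.log 2 * (-(p * x)))
  have h3 : Real.log 2 ≤ 1 := by
    have := Real.log_two_lt_d9; linarith
  have h4 : 0 ≤ p * x := by positivity
  rw [h1]
  nlinarith

end general

/-- The Gagliardo seminorm of order `s` and exponent `p` of a function on `ℝ^N`, as an element of
`[0, ∞]`: `(∫∫ |f(x) - f(y)|^p / |x - y|^{N + s p} dy dx)^{1/p}`. -/
noncomputable def gagliardo {N : ℕ} {F : Type*} [NormedAddCommGroup F] (s p : ℝ)
    (f : EuclideanSpace ℝ (Fin N) → F) : ℝ≥0∞ :=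
  (∫⁻ x, ∫⁻ y, ‖f x - f y‖ₑ ^ p / ‖x - y‖ₑ ^ ((N : ℝ) + s * p)) ^ (1 / p)

/-- For all `N ≥ 1`, `p ≥ 1` and `0 < θ < 1` there is a constant `C` such that the uniform comparison of
the Gagliardo seminorms of the orders `s` and `t` holds for all `θ < s < t < 1`, for all measurable
functions with values in an arbitrary normed group, in particular for all Schwartz functions. -/
theorem result (N : ℕ) (_hN : 1 ≤ N) (p : ℝ) (hp : 1 ≤ p) (θ : ℝ) (hθ0 : 0 < θ) (hθ1 : θ < 1) :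
    ∃ C : ℝ, 0 < C ∧ ∀ s t : ℝ, θ < s → s < t → t < 1 →
      ∀ (F : Type) [NormedAddCommGroup F] (f : EuclideanSpace ℝ (Fin N) → F),
        AEStronglyMeasurable f volume →
        ENNReal.ofReal (min s (1 - s) ^ (1 / p)) * gagliardo s p f ≤
          ENNReal.ofReal C * (eLpNorm f (ENNReal.ofReal p) volume +
            ENNReal.ofReal (min t (1 - t) ^ (1 / p)) * gagliardo t p f) := by
  have hfr : finrank ℝ (EuclideanSpace ℝ (Fin N)) = N := by simp
  have hp0 : 0 < p := by linarith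
  have hK : ∫⁻ h in (ball (0 : EuclideanSpace ℝ (Fin N)) 1)ᶜ, (‖h‖ₑ ^ ((N : ℝ) + θ * p))⁻¹ ≠ ⊤ := by
    apply far_finite
    rw [hfr]
    have : 0 < θ * p := by positivity
    linarith
  set K := ∫⁻ h in (ball (0 : EuclideanSpace ℝ (Fin N)) 1)ᶜ, (‖h‖ₑ ^ ((N : ℝ) + θ * p))⁻¹ with hKdef
  set c : ℝ := max (2 ^ p * K.toReal) (2 * p / θ) with hc
  have hc0 : 0 < c := lt_of_lt_of_le (by positivity) (le_max_right _ _)
  refine ⟨c ^ (1 / p), by positivity, ?_⟩
  intro s t hs hst ht F _ f hf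
  have hs0 : 0 < s := hθ0.trans hs
  have hs1 : s < 1 := hst.trans ht
  have ht0 : 0 < t := hs0.trans hst
  set ms := min s (1 - s) with hms
  set mt := min t (1 - t) with hmt
  have hms0 : 0 ≤ ms := le_min hs0.le (by linarith)
  have hmt0 : 0 ≤ mt := le_min ht0.le (by linarith)
  set Np := ∫⁻ x, ‖f x‖ₑ ^ p with hNp
  set I : ℝ → ℝ≥0∞ := fun u => ∫⁻ x, ∫⁻ y, ‖f x - f y‖ₑ ^ p / ‖x - y‖ₑ ^ ((N : ℝ) + u * p) with hI
  -- decomposition
  have hIs : ∀ u, I u = near volume p f u +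
      ∫⁻ h in (ball (0 : EuclideanSpace ℝ (Fin N)) 1)ᶜ,
        phi volume p f h * (‖h‖ₑ ^ ((N : ℝ) + u * p))⁻¹ := by
    intro u
    simp only [hI]
    rw [gag_eq hf, near, hfr, lintegral_add_compl _ measurableSet_ball]
  have hfar : ∫⁻ h in (ball (0 : EuclideanSpace ℝ (Fin N)) 1)ᶜ,
        phi volume p f h * (‖h‖ₑ ^ ((N : ℝ) + s * p))⁻¹ ≤ ENNReal.ofReal (2 ^ p * K.toReal) * Np := by
    have h1 : ∫⁻ h in (ball (0 : EuclideanSpace ℝ (Fin N)) 1)ᶜ,
        phi volume p f h * (‖h‖ₑ ^ ((N : ℝ) + s * p))⁻¹ ≤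
        ∫⁻ h in (ball (0 : EuclideanSpace ℝ (Fin N)) 1)ᶜ,
          (2 ^ p * Np) * (‖h‖ₑ ^ ((N : ℝ) + θ * p))⁻¹ := by
      refine setLIntegral_mono' measurableSet_ball.compl fun h hh => ?_
      have hh1 : 1 ≤ ‖h‖ := by
        rw [mem_compl_iff, mem_ball_zero_iff, not_lt] at hh
        exact hh
      refine mul_le_mul' (phi_le hp hf h) ?_
      rw [ENNReal.inv_le_inv]
      apply ENNReal.rpow_le_rpow_of_exponent_le
      · rw [← ofReal_norm, ← ENNReal.ofReal_one]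
        exact ENNReal.ofReal_le_ofReal hh1
      · have : θ * p ≤ s * p := mul_le_mul_of_nonneg_right hs.le hp0.le
        linarith
    refine h1.trans ?_
    rw [lintegral_const_mul'' _ (by fun_prop), ENNReal.ofReal_mul (by positivity), ENNReal.ofReal_toReal hK,
      ← hKdef, ← ENNReal.ofReal_rpow_of_pos (by norm_num), ENNReal.ofReal_ofNat]
    apply le_of_eq; ring
  -- the near part
  have hnear : ENNReal.ofReal ms * near volume p f s ≤
      ENNReal.ofReal (2 * p / θ) * (ENNReal.ofReal mt * near volume p f t) := by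
    have h1 := near_compare hp hf hst.le ht
    have h2 : ENNReal.ofReal ms ≤
        ENNReal.ofReal 2 * ENNReal.ofReal (1 - (2 : ℝ) ^ (-(p * (1 - s)))) := by
      rw [← ENNReal.ofReal_mul (by norm_num)]
      apply ENNReal.ofReal_le_ofReal
      have := one_sub_ge hp (x := 1 - s) (by linarith) (by linarith)
      have h3 : ms ≤ 1 - s := min_le_right _ _
      linarith
    have h3 : ENNReal.ofReal (1 - (2 : ℝ) ^ (-(p * (1 - t)))) ≤
        ENNReal.ofReal (p / θ) * ENNReal.ofReal mt := by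
      rw [← ENNReal.ofReal_mul (by positivity)]
      apply ENNReal.ofReal_le_ofReal
      have h4 := one_sub_le hp (x := 1 - t) (by linarith)
      have h5 : θ * (1 - t) ≤ mt := by
        apply le_min
        · nlinarith
        · nlinarith
      have h6 : p * (1 - t) ≤ p / θ * mt := by
        rw [div_mul_eq_mul_div, le_div_iff₀ hθ0]
        nlinarith
      linarith
    calc ENNReal.ofReal ms * near volume p f s
        ≤ ENNReal.ofReal 2 * ENNReal.ofReal (1 - (2 : ℝ) ^ (-(p * (1 - s)))) * near volume p f s := by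
          gcongr
      _ = ENNReal.ofReal 2 * (ENNReal.ofReal (1 - (2 : ℝ) ^ (-(p * (1 - s)))) * near volume p f s) := by
          ring
      _ ≤ ENNReal.ofReal 2 * (ENNReal.ofReal (1 - (2 : ℝ) ^ (-(p * (1 - t)))) * near volume p f t) := by
          gcongr
      _ ≤ ENNReal.ofReal 2 * ((ENNReal.ofReal (p / θ) * ENNReal.ofReal mt) * near volume p f t) := by
          gcongr
      _ = _ := by
          have : ENNReal.ofReal (2 * p / θ) = ENNReal.ofReal 2 * ENNReal.ofReal (p / θ) := by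
            rw [← ENNReal.ofReal_mul (by norm_num)]; congr 1; ring
          rw [this]; ring
  -- the inequality of the p-th powers
  have hmain : ENNReal.ofReal ms * I s ≤ ENNReal.ofReal c * (Np + ENNReal.ofReal mt * I t) := by
    rw [hIs s, mul_add, mul_add, add_comm]
    refine add_le_add ?_ ?_
    · calc ENNReal.ofReal ms * _ ≤ 1 * (ENNReal.ofReal (2 ^ p * K.toReal) * Np) := by
            refine mul_le_mul' ?_ hfar
            rw [← ENNReal.ofReal_one]
            exact ENNReal.ofReal_le_ofReal ((min_le_left _ _).trans hs1.le)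
        _ ≤ ENNReal.ofReal c * Np := by
            rw [one_mul]
            gcongr
            exact le_max_left _ _
    · calc ENNReal.ofReal ms * near volume p f s
          ≤ ENNReal.ofReal (2 * p / θ) * (ENNReal.ofReal mt * near volume p f t) := hnear
        _ ≤ ENNReal.ofReal c * (ENNReal.ofReal mt * I t) := by
            gcongr
            · exact le_max_right _ _
            · rw [hIs t]; exact le_self_add
  have hq0 : 0 ≤ 1 / p := by positivity
  have hq1 : 1 / p ≤ 1 := by rw [div_le_one hp0]; exact hp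
  have hNorm : eLpNorm f (ENNReal.ofReal p) volume = Np ^ (1 / p) := by
    rw [eLpNorm_eq_lintegral_rpow_enorm_toReal (by simpa using hp0) ENNReal.ofReal_ne_top,
      ENNReal.toReal_ofReal hp0.le]
  have hg : ∀ u, gagliardo u p f = I u ^ (1 / p) := fun u => rfl
  rw [hNorm, hg, hg]
  calc ENNReal.ofReal (ms ^ (1 / p)) * I s ^ (1 / p) = (ENNReal.ofReal ms * I s) ^ (1 / p) := by
        rw [ENNReal.mul_rpow_of_nonneg _ _ hq0, ENNReal.ofReal_rpow_of_nonneg hms0 hq0]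
    _ ≤ (ENNReal.ofReal c * (Np + ENNReal.ofReal mt * I t)) ^ (1 / p) :=
        ENNReal.rpow_le_rpow hmain hq0
    _ = ENNReal.ofReal (c ^ (1 / p)) * (Np + ENNReal.ofReal mt * I t) ^ (1 / p) := by
        rw [ENNReal.mul_rpow_of_nonneg _ _ hq0, ENNReal.ofReal_rpow_of_nonneg hc0.le hq0]
    _ ≤ ENNReal.ofReal (c ^ (1 / p)) * (Np ^ (1 / p) + (ENNReal.ofReal mt * I t) ^ (1 / p)) := by
        gcongr
        exact ENNReal.rpow_add_le_add_rpow _ _ hq0 hq1
    _ = _ := by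
        rw [ENNReal.mul_rpow_of_nonneg _ _ hq0, ENNReal.ofReal_rpow_of_nonneg hmt0 hq0]

end Pool.Agent.Results.MP_95ea62_an.UniformComparison
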